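import Pool.Agent.Q322.SN.Final
/-!
# The Schrijver number is not quasi-multiplicative under strong products

For `n ≥ 1` let `G_n` be the graph of the sign vectors of length `n`, two distinct vectors being
adjacent when their inner product is positive. Then `2 ≤ ϑ'(G_n) ≤ 2 n`. We show that already the
strong square of `G_n` has a Schrijver number that grows faster than every power of `n`. Hence for no
`r ≥ 2` is there a constant `C` with `ϑ'(G_1 ⊠ ... ⊠ G_r) ≤ ∏ ϑ'(G_i) ^ C` for all graphs with
`ϑ'(G_i) ≥ 2`.

Idea. (a) A moment lemma (`Moment.lean`): for each `N` there is a probability distribution on finitely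
many points of `[-1,1]²`, each with a negative coordinate, such that all mixed moments `E x^a y^b` with
`a, b < N` are positive. (By separation it is enough that a polynomial with nonnegative coefficients
that is nonpositive on the three other quadrants is zero, which follows by descent.) (b) For such a
point `(x, y)` use the product measure on pairs of sign vectors with means `λ x`, `λ y`,
`λ = n ^ (-1/4)`, whose Fourier coefficients are `(λ x)^|S| (λ y)^|T|`, cut off to the nonadjacent
pairs, which costs only `exp (-c √n)`.
-/

set_option autoImplicit false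

namespace Pool.Agent.Results.MP_885abb_co.NotQuasiMultiplicative

open Filter Pool.Agent.Q322.SN

theorem result (r : ℕ) (hr : 2 ≤ r) :
    (∀ k : ℕ, ∀ᶠ n : ℕ in atTop,
      2 ≤ schrijver (signGraph n) ∧ schrijver (signGraph n) ≤ 2 * n ∧
      (n : ℝ) ^ k ≤ schrijver (strongProd fun _ : Fin r => signGraph n)) ∧
    ¬ ∃ C : ℝ, ∀ (V : Fin r → Type) (_ : ∀ i, Fintype (V i)) (G : ∀ i, SimpleGraph (V i)),
      (∀ i, 2 ≤ schrijver (G i)) → schrijver (strongProd G) ≤ ∏ i, schrijver (G i) ^ C := by
  refine ⟨fun k => ?_, negative hr⟩
  filter_upwards [power_large hr k, eventually_ge_atTop 1] with n h hn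
  exact ⟨two_le_signGraph (by omega), signGraph_le (by omega), h⟩

end Pool.Agent.Results.MP_885abb_co.NotQuasiMultiplicative
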